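import Pool.Agent.KS6_23.FP.Main

/-!
MP_b61545_an, Q1: the answer is negative in the strongest form. For every `k ≥ 2` there are
polynomials `p` of arbitrarily large degree (`k m + 1` for every large `m`) with exactly `k`
critical values and `Λ(p) ≤ (2 (1 - 2^(-1/k)) + ε) deg p`, so that `Λ(p) / deg p` can be made as
small as one likes. The polynomials are the primitives of `c (1 - z^k)^m`.
-/

set_option autoImplicit false

open Polynomial Filter

namespace Pool.Agent.Results.MP_b61545_an.SmallRatio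

/-- the set of critical values `p((p')⁻¹(0))` -/
def critValues (p : ℂ[X]) : Set ℂ := (fun z => p.eval z) '' {z : ℂ | p.derivative.eval z = 0}

/-- the number of critical values -/
noncomputable def cv (p : ℂ[X]) : ℕ := (critValues p).ncard

open Pool.Agent.KS6_23.FP

/-- the polynomial -/
noncomputable def pp (k m : ℕ) : ℂ[X] := Polynomial.C ((I1 k m : ℂ)⁻¹) * qq k m

lemma I1C_ne {k m : ℕ} (hk : 2 ≤ k) (hm : 1 ≤ m) : (I1 k m : ℂ) ≠ 0 := by
  exact_mod_cast (I1_pos hk hm).ne'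

lemma pp_natDegree {k m : ℕ} (hk : 2 ≤ k) (hm : 1 ≤ m) : (pp k m).natDegree = k * m + 1 := by
  rw [pp, Polynomial.natDegree_C_mul (inv_ne_zero (I1C_ne hk hm)), qq_natDegree (by omega)]

lemma pp_eval (k m : ℕ) (z : ℂ) : (pp k m).eval z = (I1 k m : ℂ)⁻¹ * (qq k m).eval z := by
  simp [pp]

lemma pp_deriv (k m : ℕ) (z : ℂ) :
    (pp k m).derivative.eval z = (I1 k m : ℂ)⁻¹ * (1 - z ^ k) ^ m := by
  rw [pp, Polynomial.derivative_C_mul, Polynomial.eval_mul, Polynomial.eval_C, qq_deriv_eval]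

lemma crit_set {k m : ℕ} (hk : 2 ≤ k) (hm : 1 ≤ m) :
    critValues (pp k m) = {z : ℂ | z ^ k = 1} := by
  have h1 : {z : ℂ | (pp k m).derivative.eval z = 0} = {z : ℂ | z ^ k = 1} := by
    ext z
    simp only [Set.mem_ofPred_eq, pp_deriv]
    rw [mul_eq_zero, or_iff_right (inv_ne_zero (I1C_ne hk hm)), pow_eq_zero_iff (by omega),
      sub_eq_zero, eq_comm]
  have h2 : ∀ z : ℂ, z ^ k = 1 → (pp k m).eval z = z := by
    intro z hz
    have h := qq_smul k m z hz 1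
    rw [mul_one, qq_one] at h
    rw [pp_eval, h]
    have := I1C_ne hk hm
    field_simp
  rw [critValues, h1]
  ext z
  constructor
  · rintro ⟨x, hx, rfl⟩
    simp only [h2 x hx]
    exact hx
  · intro hz
    exact ⟨z, hz, h2 z hz⟩

lemma cv_pp {k m : ℕ} (hk : 2 ≤ k) (hm : 1 ≤ m) : cv (pp k m) = k := by
  rw [cv, crit_set hk hm]
  have h1 : {z : ℂ | z ^ k = 1} = ((Polynomial.nthRootsFinset k (1 : ℂ) : Finset ℂ) : Set ℂ) := by
    ext z
    simp [Polynomial.mem_nthRootsFinset (by omega : 0 < k)]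
  rw [h1, Set.ncard_coe_finset]
  exact (Complex.isPrimitiveRoot_exp k (by omega)).card_nthRootsFinset

lemma bound_pp (k : ℕ) (hk : 2 ≤ k) {ε : ℝ} (hε : 0 < ε) : ∀ᶠ m : ℕ in atTop, ∀ ξ : ℂ,
    (pp k m).eval ξ = ξ → ‖(pp k m).derivative.eval ξ‖ ≤
      (2 * (1 - (2 : ℝ) ^ (-(1 / (k : ℝ)))) + ε) * (pp k m).natDegree := by
  have h4 : ∀ᶠ m : ℕ in atTop, 4 / ε ≤ (m : ℝ) :=
    tendsto_natCast_atTop_atTop.eventually_ge_atTop _
  filter_upwards [main_bound k hk (half_pos hε), eventually_ge_atTop 1, h4] with m hm1 hm2 hm3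
  intro ξ hξ
  have hI := I1_pos hk hm2
  have hIC := I1C_ne hk hm2
  have hk2 : (2 : ℝ) ≤ k := by exact_mod_cast hk
  have hmr : (1 : ℝ) ≤ m := by exact_mod_cast hm2
  have h1 : (qq k m).eval ξ = ξ * (I1 k m : ℂ) := by
    rw [pp_eval] at hξ
    field_simp at hξ
    rw [mul_comm ξ]
    exact hξ
  have h2 := hm1 ξ h1
  have h3 : ‖(pp k m).derivative.eval ξ‖ = ‖1 - ξ ^ k‖ ^ m / I1 k m := by
    rw [pp_deriv, norm_mul, norm_inv, norm_pow, Complex.norm_of_nonneg hI.le]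
    ring
  rw [h3, pp_natDegree hk hm2]
  refine le_trans h2 ?_
  have hL : 2 * (1 - (2 : ℝ) ^ (-(1 / (k : ℝ)))) = Lk k / k := by
    rw [Lk, one_div]; field_simp
  rw [hL]
  have hL0 := Lk_nonneg k
  have hL1 := Lk_le k
  have h5 : 4 ≤ ε * m := by
    rw [div_le_iff₀ hε] at hm3; linarith
  push_cast
  have h6 : Lk k / k * (k * m + 1) = Lk k * m + Lk k / k := by field_simp
  have h7 : 0 ≤ Lk k / k := by positivity
  have h8 : 2 * (k : ℝ) ≤ k * (ε * m) / 2 := by nlinarith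
  have h9 : ε / 2 * (m + 1) ≤ k * (ε * m) / 2 := by nlinarith
  nlinarith

lemma two_log (k : ℕ) (hk : 2 ≤ k) :
    2 * (1 - (2 : ℝ) ^ (-(1 / (k : ℝ)))) < 2 * Real.log 2 / k := by
  have hk0 : (0 : ℝ) < k := by exact_mod_cast (by omega : 0 < k)
  have hlog : 0 < Real.log 2 := Real.log_pos (by norm_num)
  have h1 : (2 : ℝ) ^ (-(1 / (k : ℝ))) = Real.exp (-(Real.log 2 / k)) := by
    rw [Real.rpow_def_of_pos (by norm_num)]
    congr 1
    ring
  have h2 : -(Real.log 2 / k) + 1 < Real.exp (-(Real.log 2 / k)) :=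
    Real.add_one_lt_exp (by
      have : 0 < Real.log 2 / k := by positivity
      linarith)
  rw [h1]
  have h3 : 2 * Real.log 2 / k = 2 * (Real.log 2 / k) := by ring
  rw [h3]
  linarith

/-- **Few critical values do not force large fixed point multipliers.** -/
theorem result :
    -- for every `k ≥ 2`: exactly `k` critical values and `Λ(p) ≤ (2(1 - 2^(-1/k)) + ε) deg p`
    (∀ k : ℕ, 2 ≤ k → ∀ ε : ℝ, 0 < ε → ∃ M : ℕ, ∀ m : ℕ, M ≤ m → ∃ p : ℂ[X],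
      p.natDegree = k * m + 1 ∧ cv p = k ∧ ∀ ξ : ℂ, p.eval ξ = ξ →
        ‖p.derivative.eval ξ‖ ≤ (2 * (1 - (2 : ℝ) ^ (-(1 / (k : ℝ)))) + ε) * p.natDegree) ∧
    -- in particular `cv(p) Λ(p) ≤ (2 log 2) deg p`
    (∀ k : ℕ, 2 ≤ k → ∃ M : ℕ, ∀ m : ℕ, M ≤ m → ∃ p : ℂ[X],
      p.natDegree = k * m + 1 ∧ cv p = k ∧ ∀ ξ : ℂ, p.eval ξ = ξ →
        k * ‖p.derivative.eval ξ‖ ≤ 2 * Real.log 2 * p.natDegree) ∧
    -- the negated form of the question holds for every `ε < 1`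
    (∀ ε : ℝ, ε < 1 → ∀ δ : ℝ, 0 < δ → ∃ p : ℂ[X], 2 ≤ p.natDegree ∧
      (cv p : ℝ) < δ * p.natDegree ∧ ∀ ξ : ℂ, p.eval ξ = ξ →
        ‖p.derivative.eval ξ‖ < (1 - ε) * p.natDegree) := by
  have hA : ∀ k : ℕ, 2 ≤ k → ∀ ε : ℝ, 0 < ε → ∃ M : ℕ, ∀ m : ℕ, M ≤ m → ∃ p : ℂ[X],
      p.natDegree = k * m + 1 ∧ cv p = k ∧ ∀ ξ : ℂ, p.eval ξ = ξ →
        ‖p.derivative.eval ξ‖ ≤ (2 * (1 - (2 : ℝ) ^ (-(1 / (k : ℝ)))) + ε) * p.natDegree := by
    intro k hk ε hε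
    obtain ⟨M, hM⟩ := eventually_atTop.1 (bound_pp k hk hε)
    refine ⟨max M 1, fun m hm => ⟨pp k m, ?_, ?_, ?_⟩⟩
    · exact pp_natDegree hk (le_trans (le_max_right _ _) hm)
    · exact cv_pp hk (le_trans (le_max_right _ _) hm)
    · exact hM m (le_trans (le_max_left _ _) hm)
  have hB : ∀ k : ℕ, 2 ≤ k → ∃ M : ℕ, ∀ m : ℕ, M ≤ m → ∃ p : ℂ[X],
      p.natDegree = k * m + 1 ∧ cv p = k ∧ ∀ ξ : ℂ, p.eval ξ = ξ →
        k * ‖p.derivative.eval ξ‖ ≤ 2 * Real.log 2 * p.natDegree := by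
    intro k hk
    have hk0 : (0 : ℝ) < k := by exact_mod_cast (by omega : 0 < k)
    obtain ⟨M, hM⟩ := hA k hk (2 * Real.log 2 / k - 2 * (1 - (2 : ℝ) ^ (-(1 / (k : ℝ)))))
      (by linarith [two_log k hk])
    refine ⟨M, fun m hm => ?_⟩
    obtain ⟨p, h1, h2, h3⟩ := hM m hm
    refine ⟨p, h1, h2, fun ξ hξ => ?_⟩
    have h4 := h3 ξ hξ
    rw [add_sub_cancel] at h4
    calc k * ‖p.derivative.eval ξ‖ ≤ k * (2 * Real.log 2 / k * p.natDegree) :=
          mul_le_mul_of_nonneg_left h4 hk0.le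
      _ = _ := by field_simp
  refine ⟨hA, hB, ?_⟩
  intro ε hε δ hδ
  obtain ⟨k0, hk0⟩ := exists_nat_gt (2 * Real.log 2 / (1 - ε))
  set k : ℕ := max k0 2 with hk
  have hk2 : 2 ≤ k := le_max_right _ _
  have hkr : (0 : ℝ) < k := by exact_mod_cast (by omega : 0 < k)
  have hkk : 2 * Real.log 2 / (1 - ε) < k := lt_of_lt_of_le hk0 (by
    exact_mod_cast le_max_left k0 2)
  obtain ⟨M, hM⟩ := hB k hk2
  obtain ⟨N, hN⟩ := exists_nat_gt (1 / δ)
  obtain ⟨p, h1, h2, h3⟩ := hM (max (max M N) 1) (le_trans (le_max_left _ _) (le_max_left _ _))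
  set m : ℕ := max (max M N) 1 with hm
  have hm1 : 1 ≤ m := le_max_right _ _
  have hmN : N ≤ m := le_trans (le_max_right _ _) (le_max_left _ _)
  have hdeg : (p.natDegree : ℝ) = k * m + 1 := by rw [h1]; push_cast; ring
  have hmr : (1 : ℝ) ≤ m := by exact_mod_cast hm1
  have hdp : (0 : ℝ) < p.natDegree := by rw [hdeg]; positivity
  refine ⟨p, ?_, ?_, ?_⟩
  · rw [h1]; nlinarith
  · rw [h2, hdeg]
    have h4 : 1 / δ < m := lt_of_lt_of_le hN (by exact_mod_cast hmN)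
    rw [div_lt_iff₀ hδ] at h4
    nlinarith
  · intro ξ hξ
    have h4 := h3 ξ hξ
    have h5 : 2 * Real.log 2 < k * (1 - ε) := by
      rw [div_lt_iff₀ (by linarith)] at hkk; exact hkk
    have h6 : k * ‖p.derivative.eval ξ‖ < k * ((1 - ε) * p.natDegree) := by
      calc k * ‖p.derivative.eval ξ‖ ≤ 2 * Real.log 2 * p.natDegree := h4
        _ < k * (1 - ε) * p.natDegree := mul_lt_mul_of_pos_right h5 hdp
        _ = _ := by ring
    exact lt_of_mul_lt_mul_left h6 hkr.le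

end Pool.Agent.Results.MP_b61545_an.SmallRatio
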